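import Pool.Agent.Helper45.RT.Stmts3

/-!
Row ROW of project RTwo: every row of a certificate is a true inequality.
-/

set_option autoImplicit false

namespace RTwo
namespace RowPf

theorem s3_0 (x y z : ℕ) : s3 0 x y z = x := rfl
theorem s3_1 (x y z : ℕ) : s3 1 x y z = y := rfl
theorem s3_2 (x y z : ℕ) : s3 2 x y z = z := rfl
theorem s3_3 (x y z : ℕ) : s3 3 x y z = z := rfl

theorem and3_iff (a b c : Bool) : and3 a b c = true ↔ a = true ∧ b = true ∧ c = true := by
  cases a <;> cases b <;> cases c <;> simp [and3, sel]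

theorem sel_iff (a x : Bool) : sel a x false = true ↔ a = true ∧ x = true := by
  cases a <;> cases x <;> simp [sel]

theorem col_lt (F x y : ℕ) : col F x y < 4 := Nat.mod_lt _ (by norm_num)

theorem okd_one {a b d : ℝ} (h : Okd 1 a b d) : d = a := h.1 (by decide)

theorem okd_two {a b d : ℝ} (h : Okd 2 a b d) : d = b := h.2 (by decide)

theorem okd_same {c : ℕ} {a b d d' : ℝ} (hc : c < 4) (h1 : 1 ≤ c) (h : Okd c a b d)
    (h' : Okd c a b d') : d = d' := by
  interval_cases c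
  · rw [h.1 (by decide), h'.1 (by decide)]
  · rw [h.2 (by decide), h'.2 (by decide)]
  · rw [h.1 (by decide), h'.1 (by decide)]

theorem an_comm (x y z : ℂ) : an x y z = an x z y := by
  unfold an
  rw [EuclideanGeometry.angle_comm]

theorem cr_swap (x y z : ℂ) : cr x z y = - cr x y z := by unfold cr; ring
theorem cr_swap' (x y z : ℂ) : cr y x z = - cr x y z := by unfold cr; ring
theorem cr_rot (x y z : ℂ) : cr z x y = cr x y z := by unfold cr; ring

/-- facts about a vertex `x` of a triangle `x y z` of the configuration, the angle at `x` is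
represented by the pair `X, Y` -/
structure Ang (C : IC) (α β : ℝ) (φ : ℕ → ℕ → ℝ) (x y z : ℂ) (X Y : ℕ) : Prop where
  ne : cr x y z ≠ 0
  pk : ∃ u v : ℝ, Pk C.D α β φ 3601 X u ∧ Pk C.D α β φ 1 Y v ∧ u - v = an x y z

theorem ang (hPK : ST_PK) {C : IC} {m F : ℕ} {P : ℕ → ℂ} {a b α β : ℝ} {φ : ℕ → ℕ → ℝ}
    (H : Cfg C m F P a b α β φ) (hs : SmallC C) {i j k p : ℕ} (hij : i < j) (hjk : j < k)
    (hk : k < m) (hp : p < 4) :
    Ang C α β φ (P (s3 p i j k)) (P (ov i j k p 0)) (P (ov i j k p 1)) (aP C.D i j k p)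
      (aN i j k p) := by
  obtain ⟨hadd, hmul, hmono, hc, -, -, hph⟩ := hPK C.D α β φ
  have hm := H.m_le
  have hD := H.ok.D_pos
  have hD' := hs.1
  have hpos := H.pos i j k hij hjk hk
  obtain ⟨h0, h1, h2⟩ := H.phi i j k hij hjk hk
  have pij := hph i j (by omega) (by omega)
  have pik := hph i k (by omega) (by omega)
  have pjk := hph j k (by omega) (by omega)
  have e : C.D + 1 ≤ 3601 := by omega
  have hcD : Pk C.D α β φ C.D C.D 1 := by
    have := hc C.D
    rwa [div_self (by positivity)] at this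
  have a00 : aP C.D i j k 0 = ph i k := s3_0 _ _ _
  have a01 : aP C.D i j k 1 = Nat.add C.D (ph i j) := s3_1 _ _ _
  rw [Nat.add_eq] at a01
  have a02 : aP C.D i j k 2 = ph j k := s3_2 _ _ _
  have a03 : aP C.D i j k 3 = ph j k := s3_3 _ _ _
  have a10 : aN i j k 0 = ph i j := s3_0 _ _ _
  have a11 : aN i j k 1 = ph j k := s3_1 _ _ _
  have a12 : aN i j k 2 = ph i k := s3_2 _ _ _
  have a13 : aN i j k 3 = ph i k := s3_3 _ _ _
  interval_cases p
  · rw [a00, a10]
    refine ⟨?_, φ i k, φ i j, ?_, pij, ?_⟩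
    · show cr (P i) (P j) (P k) ≠ 0
      exact hpos.ne'
    · exact hmono 1 _ _ 3601 pik (by norm_num)
    · show _ = an (P i) (P j) (P k); rw [h0]
  · rw [a01, a11]
    refine ⟨?_, 1 + φ i j, φ j k, ?_, pjk, ?_⟩
    · show cr (P j) (P i) (P k) ≠ 0
      rw [cr_swap']; exact neg_ne_zero.2 hpos.ne'
    · exact hmono (C.D + 1) _ _ 3601 (hadd _ _ _ _ _ _ hcD pij) e
    · show _ = an (P j) (P i) (P k); rw [h1]
  · rw [a02, a12]
    refine ⟨?_, φ j k, φ i k, ?_, pik, ?_⟩
    · show cr (P k) (P i) (P j) ≠ 0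
      rw [cr_rot]; exact hpos.ne'
    · exact hmono 1 _ _ 3601 pjk (by norm_num)
    · show _ = an (P k) (P i) (P j); rw [h2]
  · rw [a03, a13]
    refine ⟨?_, φ j k, φ i k, ?_, pik, ?_⟩
    · show cr (P k) (P i) (P j) ≠ 0
      rw [cr_rot]; exact hpos.ne'
    · exact hmono 1 _ _ 3601 pjk (by norm_num)
    · show _ = an (P k) (P i) (P j); rw [h2]

/-- the colours of the sides -/
theorem sides {C : IC} {m F : ℕ} {P : ℕ → ℂ} {a b α β : ℝ} {φ : ℕ → ℕ → ℝ}
    (H : Cfg C m F P a b α β φ) {i j k p : ℕ} (hij : i < j) (hjk : j < k)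
    (hk : k < m) (hp : p < 4) :
    Okd (oc F i j k p) a b (dist (P (ov i j k p 0)) (P (ov i j k p 1))) ∧
    Okd (ad1 F i j k p) a b (dist (P (s3 p i j k)) (P (ov i j k p 0))) ∧
    Okd (ad2 F i j k p) a b (dist (P (s3 p i j k)) (P (ov i j k p 1))) := by
  have hi : i < m := by omega
  have hj : j < m := by omega
  have cij := H.col i j hi hj
  have cik := H.col i k hi hk
  have cjk := H.col j k hj hk
  have cji : Okd (RTwo.col F i j) a b (dist (P j) (P i)) := by rw [dist_comm]; exact cij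
  have cki : Okd (RTwo.col F i k) a b (dist (P k) (P i)) := by rw [dist_comm]; exact cik
  have ckj : Okd (RTwo.col F j k) a b (dist (P k) (P j)) := by rw [dist_comm]; exact cjk
  interval_cases p
  · exact ⟨cjk, cij, cik⟩
  · exact ⟨cik, cji, cjk⟩
  · exact ⟨cij, cki, ckj⟩
  · exact ⟨cij, cki, ckj⟩

theorem ov_lt {m i j k p : ℕ} (e : ℕ) (hij : i < j) (hjk : j < k) (hk : k < m) (hp : p < 4)
    (he : e < 2) : s3 p i j k < m ∧ ov i j k p e < m := by
  have hi : i < m := by omega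
  have hj : j < m := by omega
  interval_cases p <;> interval_cases e <;> exact ⟨by assumption, by assumption⟩

/-- the position of two angles of the same triangle -/
theorem two {C : IC} {m F : ℕ} {P : ℕ → ℂ} {a b α β : ℝ} {φ : ℕ → ℕ → ℝ}
    (H : Cfg C m F P a b α β φ) {i j k p q : ℕ} (hij : i < j) (hjk : j < k)
    (hk : k < m) (hp : p < 4) (hq : q < 4) :
    (an (P (s3 p i j k)) (P (ov i j k p 0)) (P (ov i j k p 1)) =
        an (P (s3 q i j k)) (P (ov i j k q 0)) (P (ov i j k q 1)) ∧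
      oc F i j k p = oc F i j k q) ∨
    ∃ r : ℂ, cr (P (s3 p i j k)) (P (s3 q i j k)) r ≠ 0 ∧
      an (P (s3 p i j k)) (P (ov i j k p 0)) (P (ov i j k p 1)) =
        an (P (s3 p i j k)) (P (s3 q i j k)) r ∧
      an (P (s3 q i j k)) (P (ov i j k q 0)) (P (ov i j k q 1)) =
        an (P (s3 q i j k)) (P (s3 p i j k)) r ∧
      Okd (oc F i j k p) a b (dist (P (s3 q i j k)) r) ∧
      Okd (oc F i j k q) a b (dist (P (s3 p i j k)) r) := by
  have hi : i < m := by omega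
  have hj : j < m := by omega
  have cij := H.col i j hi hj
  have cik := H.col i k hi hk
  have cjk := H.col j k hj hk
  have cji : Okd (RTwo.col F i j) a b (dist (P j) (P i)) := by rw [dist_comm]; exact cij
  have cki : Okd (RTwo.col F i k) a b (dist (P k) (P i)) := by rw [dist_comm]; exact cik
  have ckj : Okd (RTwo.col F j k) a b (dist (P k) (P j)) := by rw [dist_comm]; exact cjk
  have hpos := H.pos i j k hij hjk hk
  have n1 : cr (P i) (P j) (P k) ≠ 0 := hpos.ne'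
  have n2 : cr (P i) (P k) (P j) ≠ 0 := by rw [cr_swap]; exact neg_ne_zero.2 hpos.ne'
  have n3 : cr (P j) (P i) (P k) ≠ 0 := by rw [cr_swap']; exact neg_ne_zero.2 hpos.ne'
  have n4 : cr (P k) (P i) (P j) ≠ 0 := by rw [cr_rot]; exact hpos.ne'
  have n5 : cr (P j) (P k) (P i) ≠ 0 := by rw [← cr_rot]; exact hpos.ne'
  have n6 : cr (P k) (P j) (P i) ≠ 0 := by
    rw [cr_swap, cr_rot]; exact neg_ne_zero.2 hpos.ne'
  interval_cases p <;> interval_cases q
  all_goals first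
    | exact Or.inl ⟨rfl, rfl⟩
    | exact Or.inr ⟨P k, n1, rfl, rfl, cjk, cik⟩
    | exact Or.inr ⟨P j, n2, an_comm _ _ _, rfl, ckj, cij⟩
    | exact Or.inr ⟨P k, n3, rfl, rfl, cik, cjk⟩
    | exact Or.inr ⟨P i, n5, an_comm _ _ _, an_comm _ _ _, cki, cji⟩
    | exact Or.inr ⟨P j, n4, rfl, an_comm _ _ _, cij, ckj⟩
    | exact Or.inr ⟨P i, n6, an_comm _ _ _, an_comm _ _ _, cji, cki⟩

theorem pair_eq {a b c d : ℕ} (h1 : a + b = c + d) (h2 : a * b = c * d) :
    (a = c ∧ b = d) ∨ (a = d ∧ b = c) := by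
  have h : ((a : ℤ) - c) * (a - d) = 0 := by
    have h1' : (a : ℤ) + b = c + d := by exact_mod_cast h1
    have h2' : (a : ℤ) * b = c * d := by exact_mod_cast h2
    have : (b : ℤ) = c + d - a := by linarith
    rw [this] at h2'
    linear_combination -h2'
  rcases mul_eq_zero.1 h with h | h
  · left; constructor <;> omega
  · right; constructor <;> omega

/-- the statement for one row -/
def Concl (C : IC) (α β : ℝ) (φ : ℕ → ℕ → ℝ) (K : ℕ → ℕ → ℕ → Bool) : Prop :=
  ∃ X Y z x y, K X Y z = true ∧ Pk C.D α β φ 1000000 X x ∧ Pk C.D α β φ 1000000 Y y ∧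
        y ≤ x ∧ z ≤ 1 ∧ (z = 1 → y < x)

section rows

variable {C : IC} {m F : ℕ} {P : ℕ → ℂ} {a b α β : ℝ} {φ : ℕ → ℕ → ℝ}

theorem row_t (hANG : ST_ANG) (hPK : ST_PK) (H : Cfg C m F P a b α β φ) (hs : SmallC C)
    {i j k p : ℕ} (hij : i < j) (hjk : j < k) (hk : k < m) (hp : p < 4)
    {K : ℕ → ℕ → ℕ → Bool} (h : K (aP C.D i j k p) (aN i j k p) 1 = true) :
    Concl C α β φ K := by
  obtain ⟨ne, u, v, pu, pv, e⟩ := ang hPK H hs hij hjk hk hp
  obtain ⟨-, -, hmono, -, -, -, -⟩ := hPK C.D α β φ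
  have h0 := (hANG _ _ _ ne).1
  refine ⟨_, _, _, u, v, h, hmono _ _ _ _ pu (by norm_num), hmono _ _ _ _ pv (by norm_num), ?_, le_rfl, fun _ => ?_⟩
  · rw [← e] at h0; linarith
  · rw [← e] at h0; linarith

/-- difference of two angles -/
theorem row_d (hPK : ST_PK) {X Y X' Y' : ℕ} {x y z x' y' z' : ℂ} {st : ℕ}
    (A : Ang C α β φ x y z X Y) (A' : Ang C α β φ x' y' z' X' Y')
    {K : ℕ → ℕ → ℕ → Bool} (h : K (X + Y') (Y + X') st = true) (hst : st ≤ 1)
    (hle : an x' y' z' ≤ an x y z) (hlt : st = 1 → an x' y' z' < an x y z) :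
    Concl C α β φ K := by
  obtain ⟨-, u, v, pu, pv, e⟩ := A
  obtain ⟨-, u', v', pu', pv', e'⟩ := A'
  obtain ⟨hadd, -, hmono, -, -, -, -⟩ := hPK C.D α β φ
  refine ⟨_, _, _, u + v', v + u', h, hmono _ _ _ _ (hadd _ _ _ _ _ _ pu pv') (by norm_num),
    hmono _ _ _ _ (hadd _ _ _ _ _ _ pv pu') (by norm_num), ?_, hst, fun h1 => ?_⟩
  · rw [← e, ← e'] at hle; linarith
  · have := hlt h1
    rw [← e, ← e'] at this; linarith

/-- `κd θ' < κn θ` -/
theorem row_k (hPK : ST_PK) {X Y X' Y' kn kd : ℕ} {x y z x' y' z' : ℂ}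
    (A : Ang C α β φ x y z X Y) (A' : Ang C α β φ x' y' z' X' Y') (hkn : kn ≤ 100) (hkd : kd ≤ 100)
    {K : ℕ → ℕ → ℕ → Bool} (h : K (kn * X + kd * Y') (kn * Y + kd * X') 1 = true)
    (hlt : kd * an x' y' z' < kn * an x y z) :
    Concl C α β φ K := by
  obtain ⟨-, u, v, pu, pv, e⟩ := A
  obtain ⟨-, u', v', pu', pv', e'⟩ := A'
  obtain ⟨hadd, hmul, hmono, -, -, -, -⟩ := hPK C.D α β φ
  have hh : (kn : ℝ) * v + kd * u' < kn * u + kd * v' := by
    rw [← e, ← e'] at hlt; linarith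
  refine ⟨_, _, _, kn * u + kd * v', kn * v + kd * u', h,
    hmono _ _ _ _ (hadd _ _ _ _ _ _ (hmul _ _ _ kn pu) (hmul _ _ _ kd pv')) (by omega),
    hmono _ _ _ _ (hadd _ _ _ _ _ _ (hmul _ _ _ kn pv) (hmul _ _ _ kd pu')) (by omega),
    hh.le, le_rfl, fun _ => hh⟩

/-- `κd θ' < κn (1 - θ)` -/
theorem row_k1 (hPK : ST_PK) (hD : 0 < C.D) (hD' : C.D ≤ 3600) {X Y X' Y' kn kd : ℕ}
    {x y z x' y' z' : ℂ}
    (A : Ang C α β φ x y z X Y) (A' : Ang C α β φ x' y' z' X' Y') (hkn : kn ≤ 100) (hkd : kd ≤ 100)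
    {K : ℕ → ℕ → ℕ → Bool} (h : K (kn * (C.D + Y) + kd * Y') (kn * X + kd * X') 1 = true)
    (hlt : kd * an x' y' z' < kn * (1 - an x y z)) :
    Concl C α β φ K := by
  obtain ⟨-, u, v, pu, pv, e⟩ := A
  obtain ⟨-, u', v', pu', pv', e'⟩ := A'
  obtain ⟨hadd, hmul, hmono, hc, -, -, -⟩ := hPK C.D α β φ
  have hcD : Pk C.D α β φ C.D C.D 1 := by
    have := hc C.D
    rwa [div_self (by positivity)] at this
  have hh : (kn : ℝ) * u + kd * u' < kn * (1 + v) + kd * v' := by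
    rw [← e, ← e'] at hlt; linarith
  refine ⟨_, _, _, kn * (1 + v) + kd * v', kn * u + kd * u', h,
    hmono _ _ _ _ (hadd _ _ _ _ _ _ (hmul _ _ _ kn (hadd _ _ _ _ _ _ hcD pv))
      (hmul _ _ _ kd pv')) ?_,
    hmono _ _ _ _ (hadd _ _ _ _ _ _ (hmul _ _ _ kn pu) (hmul _ _ _ kd pu')) (by omega),
    hh.le, le_rfl, fun _ => hh⟩
  have : kn * (C.D + 1) ≤ 100 * 3601 := Nat.mul_le_mul hkn (by omega)
  omega

/-- `θ' < g / D` -/
theorem row_g (hPK : ST_PK) {X' Y' g : ℕ}
    {x' y' z' : ℂ} (A' : Ang C α β φ x' y' z' X' Y') (hg : g ≤ 7200)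
    {K : ℕ → ℕ → ℕ → Bool} (h : K (g + Y') X' 1 = true)
    (hlt : an x' y' z' < g / C.D) :
    Concl C α β φ K := by
  obtain ⟨-, u', v', pu', pv', e'⟩ := A'
  obtain ⟨hadd, hmul, hmono, hc, -, -, -⟩ := hPK C.D α β φ
  have hh : u' < g / C.D + v' := by
    rw [← e'] at hlt; linarith
  exact ⟨_, _, _, g / C.D + v', u', h,
    hmono _ _ _ _ (hadd _ _ _ _ _ _ (hc g) pv') (by omega),
    hmono _ _ _ _ pu' (by norm_num), hh.le, le_rfl, fun _ => hh⟩

/-- two angles of the same triangle, relation of their sides -/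
theorem row_same (hPK : ST_PK) (H : Cfg C m F P a b α β φ) (hs : SmallC C) {i j k p q : ℕ}
    (hij : i < j) (hjk : j < k) (hk : k < m) (hp : p < 4) (hq : q < 4) :
    Ang C α β φ (P (s3 p i j k)) (P (ov i j k p 0)) (P (ov i j k p 1)) (aP C.D i j k p)
      (aN i j k p) ∧
    Ang C α β φ (P (s3 q i j k)) (P (ov i j k q 0)) (P (ov i j k q 1)) (aP C.D i j k q)
      (aN i j k q) :=
  ⟨ang hPK H hs hij hjk hk hp, ang hPK H hs hij hjk hk hq⟩

/-- opposite sides `b` and `a` -/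
theorem opp (H : Cfg C m F P a b α β φ) {i j k p q : ℕ}
    (hij : i < j) (hjk : j < k) (hk : k < m) (hp : p < 4) (hq : q < 4)
    (h2 : oc F i j k p = 2) (h1 : oc F i j k q = 1) :
    ∃ r : ℂ, cr (P (s3 q i j k)) (P (s3 p i j k)) r ≠ 0 ∧
      an (P (s3 p i j k)) (P (ov i j k p 0)) (P (ov i j k p 1)) =
        an (P (s3 p i j k)) (P (s3 q i j k)) r ∧
      an (P (s3 q i j k)) (P (ov i j k q 0)) (P (ov i j k q 1)) =
        an (P (s3 q i j k)) (P (s3 p i j k)) r ∧
      dist (P (s3 q i j k)) r = b ∧ dist (P (s3 p i j k)) r = a := by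
  rcases two H hij hjk hk hp hq with ⟨-, h⟩ | ⟨r, hne, e1, e2, c1, c2⟩
  · omega
  · rw [h2] at c1
    rw [h1] at c2
    exact ⟨r, by rw [cr_swap']; exact neg_ne_zero.2 hne, e1, e2, okd_two c1, okd_one c2⟩

/-- hinge: the apexes and the sides -/
theorem hng_spec (H : Cfg C m F P a b α β φ) {i j k p i' j' k' q e e' : ℕ}
    (hij : i < j) (hjk : j < k) (hk : k < m) (hij' : i' < j') (hjk' : j' < k') (hk' : k' < m)
    (hp : p < 4) (hq : q < 4) (he : e < 2) (he' : e' < 2)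
    (h : hng F i j k p e i' j' k' q e' = true) :
    1 ≤ oc F i' j' k' q ∧
    dist (P (s3 p i j k)) (P (ov i j k p (1 - e))) =
      dist (P (s3 q i' j' k')) (P (ov i' j' k' q (1 - e'))) ∧
    dist (P (s3 p i j k)) (P (ov i j k p e)) =
      dist (P (s3 q i' j' k')) (P (ov i' j' k' q e')) := by
  unfold hng at h
  rw [and3_iff, and3_iff, Nat.beq_eq, Nat.beq_eq, Nat.beq_eq, Nat.ble_eq, Nat.ble_eq] at h
  obtain ⟨⟨h1, h2, h3⟩, h4, h5⟩ := h
  have l1 := ov_lt (m := m) (1 - e) hij hjk hk hp (by omega)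
  have l2 := ov_lt (m := m) (1 - e') hij' hjk' hk' hq (by omega)
  have c1 := H.col _ _ l1.1 l1.2
  have c2 := H.col _ _ l2.1 l2.2
  refine ⟨h3, ?_, ?_⟩
  · change RTwo.col F (s3 p i j k) (ov i j k p (1 - e)) =
      RTwo.col F (s3 q i' j' k') (ov i' j' k' q (1 - e')) at h1
    rw [← h1] at c2
    exact okd_same (col_lt _ _ _) h2 c1 c2
  · rcases pair_eq h4 h5 with ⟨e1, e2⟩ | ⟨e1, e2⟩
    · rw [e1, e2]
    · rw [e1, e2, dist_comm]

/-- an angle with its sides in the order `e`, `1 - e` -/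
theorem an_e {i j k p e : ℕ} (he : e < 2) :
    an (P (s3 p i j k)) (P (ov i j k p 0)) (P (ov i j k p 1)) =
      an (P (s3 p i j k)) (P (ov i j k p e)) (P (ov i j k p (1 - e))) ∧
    (cr (P (s3 p i j k)) (P (ov i j k p 0)) (P (ov i j k p 1)) ≠ 0 →
      cr (P (s3 p i j k)) (P (ov i j k p e)) (P (ov i j k p (1 - e))) ≠ 0) ∧
    dist (P (ov i j k p 0)) (P (ov i j k p 1)) =
      dist (P (ov i j k p e)) (P (ov i j k p (1 - e))) := by
  interval_cases e
  · exact ⟨rfl, id, rfl⟩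
  · exact ⟨an_comm _ _ _, fun h => by rw [cr_swap]; exact neg_ne_zero.2 h, dist_comm _ _⟩

/-- row HINGE for two triangles -/
theorem hinge (hHINGE : ST_HINGE) {i j k p i' j' k' q e e' : ℕ} (he : e < 2) (he' : e' < 2)
    (n1 : cr (P (s3 p i j k)) (P (ov i j k p 0)) (P (ov i j k p 1)) ≠ 0)
    (n2 : cr (P (s3 q i' j' k')) (P (ov i' j' k' q 0)) (P (ov i' j' k' q 1)) ≠ 0)
    (d1 : dist (P (s3 p i j k)) (P (ov i j k p (1 - e))) =
      dist (P (s3 q i' j' k')) (P (ov i' j' k' q (1 - e'))))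
    (d2 : dist (P (s3 p i j k)) (P (ov i j k p e)) =
      dist (P (s3 q i' j' k')) (P (ov i' j' k' q e'))) :
    (dist (P (ov i j k p 0)) (P (ov i j k p 1)) = dist (P (ov i' j' k' q 0)) (P (ov i' j' k' q 1)) →
      an (P (s3 p i j k)) (P (ov i j k p 0)) (P (ov i j k p 1)) =
      an (P (s3 q i' j' k')) (P (ov i' j' k' q 0)) (P (ov i' j' k' q 1))) ∧
    (dist (P (ov i' j' k' q 0)) (P (ov i' j' k' q 1)) < dist (P (ov i j k p 0)) (P (ov i j k p 1)) →
      an (P (s3 q i' j' k')) (P (ov i' j' k' q 0)) (P (ov i' j' k' q 1)) <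
      an (P (s3 p i j k)) (P (ov i j k p 0)) (P (ov i j k p 1))) := by
  obtain ⟨a1, b1, c1⟩ := an_e (P := P) (i := i) (j := j) (k := k) (p := p) he
  obtain ⟨a2, b2, c2⟩ := an_e (P := P) (i := i') (j := j') (k := k') (p := q) he'
  rw [a1, a2, c1, c2]
  exact ⟨fun h => (hHINGE _ _ _ _ _ _ (b1 n1) (b2 n2) d2 d1).1 h,
    fun h => (hHINGE _ _ _ _ _ _ (b2 n2) (b1 n1) d2.symm d1.symm).2 h⟩

/-- two triangles over the same base -/
theorem base (hBASE2 : ST_BASE2) (H : Cfg C m F P a b α β φ) (hC : C.uk = true)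
    {i j k p i' j' k' q : ℕ}
    (hij : i < j) (hjk : j < k) (hk : k < m) (hij' : i' < j') (hjk' : j' < k') (hk' : k' < m)
    (hp : p < 4) (hq : q < 4)
    (n1 : cr (P (s3 p i j k)) (P (ov i j k p 0)) (P (ov i j k p 1)) ≠ 0)
    (n2 : cr (P (s3 q i' j' k')) (P (ov i' j' k' q 0)) (P (ov i' j' k' q 1)) ≠ 0)
    (h1 : ad1 F i j k p = 1) (h2 : ad2 F i j k p = 1) (h3 : ad1 F i' j' k' q = 2)
    (h4 : ad2 F i' j' k' q = 2)
    (h5 : ov i j k p 0 + ov i j k p 1 = ov i' j' k' q 0 + ov i' j' k' q 1)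
    (h6 : ov i j k p 0 * ov i j k p 1 = ov i' j' k' q 0 * ov i' j' k' q 1) :
    C.kd * an (P (s3 q i' j' k')) (P (ov i' j' k' q 0)) (P (ov i' j' k' q 1)) <
      C.kn * an (P (s3 p i j k)) (P (ov i j k p 0)) (P (ov i j k p 1)) ∧
    C.qn * an (P (s3 p i j k)) (P (ov i j k p 0)) (P (ov i j k p 1)) <
      C.qd * an (P (s3 q i' j' k')) (P (ov i' j' k' q 0)) (P (ov i' j' k' q 1)) ∧
    an (P (s3 q i' j' k')) (P (ov i' j' k' q 0)) (P (ov i' j' k' q 1)) <
      ((2 * C.ga : ℕ) : ℝ) / C.D := by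
  obtain ⟨-, s1, s2⟩ := sides H hij hjk hk hp
  obtain ⟨-, s3', s4⟩ := sides H hij' hjk' hk' hq
  rw [h1] at s1
  rw [h2] at s2
  rw [h3] at s3'
  rw [h4] at s4
  have s1 := okd_one s1
  have s2 := okd_one s2
  have s3' := okd_two s3'
  have s4 := okd_two s4
  have hk0 := H.ok.kd_pos hC
  have hk1 := H.ok.k_ok hC
  have hq0 := H.ok.q_ok hC
  have hga := H.ok.ga_ok hC
  have hD := H.ok.D_pos
  have hkd : (0 : ℝ) < C.kd := by exact_mod_cast hk0.1
  have hqd : (0 : ℝ) < C.qd := by exact_mod_cast hq0.1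
  have hD' : (0 : ℝ) < C.D := by exact_mod_cast hD
  have hb : 0 < b := lt_trans H.ha H.hab
  have hκ : a ≤ (C.kn : ℝ) / C.kd * b := by
    rw [div_mul_eq_mul_div, le_div_iff₀ hkd]
    exact hk1
  have hκ1 : (C.kn : ℝ) / C.kd ≤ 1 := by
    rw [div_le_one hkd]
    exact_mod_cast hk0.2
  have key : ∃ y z : ℂ, cr (P (s3 p i j k)) y z ≠ 0 ∧ cr (P (s3 q i' j' k')) y z ≠ 0 ∧
      an (P (s3 p i j k)) (P (ov i j k p 0)) (P (ov i j k p 1)) = an (P (s3 p i j k)) y z ∧
      an (P (s3 q i' j' k')) (P (ov i' j' k' q 0)) (P (ov i' j' k' q 1)) =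
        an (P (s3 q i' j' k')) y z ∧
      dist (P (s3 p i j k)) y = a ∧ dist (P (s3 p i j k)) z = a ∧
      dist (P (s3 q i' j' k')) y = b ∧ dist (P (s3 q i' j' k')) z = b := by
    rcases pair_eq h5 h6 with ⟨e1, e2⟩ | ⟨e1, e2⟩
    · refine ⟨_, _, n1, ?_, rfl, ?_, s1, s2, ?_, ?_⟩
      · rw [e1, e2]; exact n2
      · rw [e1, e2]
      · rw [e1]; exact s3'
      · rw [e2]; exact s4
    · refine ⟨_, _, n1, ?_, rfl, ?_, s1, s2, ?_, ?_⟩
      · rw [e1, e2, cr_swap]; exact neg_ne_zero.2 n2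
      · rw [e1, e2]; exact an_comm _ _ _
      · rw [e1]; exact s4
      · rw [e2]; exact s3'
  obtain ⟨y, z, m1, m2, e1, e2, d1, d2, d3, d4⟩ := key
  obtain ⟨r1, r2, r3⟩ := hBASE2 _ _ y z a b _ _ m1 m2 H.ha H.hab d1 d2 d3 d4 hκ hκ1 hq0.2
  rw [e1, e2]
  refine ⟨?_, ?_, ?_⟩
  · rw [div_mul_eq_mul_div, lt_div_iff₀ hkd] at r1
    linarith
  · rw [div_mul_eq_mul_div, div_lt_iff₀ hqd] at r2
    linarith
  · have hpi := Real.pi_pos
    have : an (P (s3 q i' j' k')) y z * Real.pi < ((2 * C.ga : ℕ) : ℝ) / C.D * Real.pi := by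
      push_cast
      calc _ ≤ 2 * Real.arcsin (a / b) := r3
        _ < 2 * ((C.ga : ℝ) / C.D * Real.pi) := by linarith
        _ = _ := by ring
    exact lt_of_mul_lt_mul_right this hpi.le

/-- the apex of an isosceles triangle -/
theorem apex (hAPEX : ST_APEX) (H : Cfg C m F P a b α β φ) {i j k p : ℕ}
    (hij : i < j) (hjk : j < k) (hk : k < m) (hp : p < 4) {o x : ℕ} {s t : ℝ}
    (n1 : cr (P (s3 p i j k)) (P (ov i j k p 0)) (P (ov i j k p 1)) ≠ 0)
    (h : isoT F i j k p o x = true) (ho : ∀ d, Okd o a b d → d = t) (hx : ∀ d, Okd x a b d → d = s) :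
    an (P (s3 p i j k)) (P (ov i j k p 0)) (P (ov i j k p 1)) * Real.pi =
      2 * Real.arcsin (t / (2 * s)) ∧ t < 2 * s := by
  unfold isoT at h
  rw [and3_iff, Nat.beq_eq, Nat.beq_eq, Nat.beq_eq] at h
  obtain ⟨h1, h2, h3⟩ := h
  obtain ⟨s1, s2, s3'⟩ := sides H hij hjk hk hp
  rw [h1] at s1
  rw [h2] at s2
  rw [h3] at s3'
  exact hAPEX _ _ _ s t n1 (hx _ s2) (hx _ s3') (ho _ s1)

end rows

theorem main (hANG : ST_ANG) (hISO : ST_ISO) (hAPEX : ST_APEX) (hHINGE : ST_HINGE)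
    (hSINL : ST_SINL) (hBASE2 : ST_BASE2) (hPK : ST_PK)
    {C : IC} {m F : ℕ} {P : ℕ → ℂ} {a b α β : ℝ} {φ : ℕ → ℕ → ℝ}
    (H : Cfg C m F P a b α β φ) (hs : SmallC C)
    {kd i j k p i' j' k' q e e' : ℕ} {K : ℕ → ℕ → ℕ → Bool}
    (hij : i < j) (hjk : j < k) (hk : k < m) (hij' : i' < j') (hjk' : j' < k') (hk' : k' < m)
    (hp : p < 4) (hq : q < 4) (he : e < 2) (he' : e' < 2)
    (h : row C F kd i j k p i' j' k' q e e' K = true) : Concl C α β φ K := by
  have hs' := hs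
  obtain ⟨hD, hal, hah, hbl, hbh, hkn, hkd, hqn, hqd, hga⟩ := hs'
  have hD0 := H.ok.D_pos
  have hD0' : (0 : ℝ) < C.D := by exact_mod_cast hD0
  have hb : 0 < b := lt_trans H.ha H.hab
  have hpi := Real.pi_pos
  have A := ang hPK H hs hij hjk hk hp
  have B := ang hPK H hs hij hjk hk hq
  have A' := ang hPK H hs hij' hjk' hk' hq
  obtain ⟨-, hmul, hmono, hc, hα, hβ, -⟩ := hPK C.D α β φ
  -- comparison of constants
  have cmp : ∀ x y : ℝ, x * Real.pi < y * Real.pi → x < y := fun x y h =>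
    lt_of_mul_lt_mul_right h hpi.le
  -- kinds 2 to 5
  have kk : ∀ R : Bool, and3 (Nat.beq (oc F i j k p) 2) (Nat.beq (oc F i j k q) 1) R = true →
      (oc F i j k p = 2 ∧ oc F i j k q = 1) ∧ R = true := by
    intro R hR
    rw [and3_iff, Nat.beq_eq, Nat.beq_eq] at hR
    exact ⟨⟨hR.1, hR.2.1⟩, hR.2.2⟩
  have hsinl : C.uk = true → oc F i j k p = 2 ∧ oc F i j k q = 1 →
      C.kd * an (P (s3 q i j k)) (P (ov i j k q 0)) (P (ov i j k q 1)) <
        C.kn * an (P (s3 p i j k)) (P (ov i j k p 0)) (P (ov i j k p 1)) ∧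
      C.kd * an (P (s3 q i j k)) (P (ov i j k q 0)) (P (ov i j k q 1)) <
        C.kn * (1 - an (P (s3 p i j k)) (P (ov i j k p 0)) (P (ov i j k p 1))) ∧
      an (P (s3 q i j k)) (P (ov i j k q 0)) (P (ov i j k q 1)) < (C.ga : ℝ) / C.D := by
    rintro hC ⟨h2, h1⟩
    obtain ⟨r, hne, e1, e2, d2, d1⟩ := opp H hij hjk hk hp hq h2 h1
    have hk0 := H.ok.kd_pos hC
    have hk1 := H.ok.k_ok hC
    have hg := H.ok.ga_ok hC
    have hkd' : (0 : ℝ) < C.kd := by exact_mod_cast hk0.1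
    have hκ : a ≤ (C.kn : ℝ) / C.kd * b := by
      rw [div_mul_eq_mul_div, le_div_iff₀ hkd']
      exact hk1
    have hκ1 : (C.kn : ℝ) / C.kd ≤ 1 := by
      rw [div_le_one hkd']
      exact_mod_cast hk0.2
    obtain ⟨r1, r2, r3⟩ := hSINL _ _ r a b _ hne H.ha H.hab d1 d2 hκ hκ1
    rw [e1, e2]
    refine ⟨?_, ?_, ?_⟩
    · rw [div_mul_eq_mul_div, lt_div_iff₀ hkd'] at r1
      linarith
    · rw [div_mul_eq_mul_div, lt_div_iff₀ hkd'] at r2
      linarith
    · exact cmp _ _ (lt_of_le_of_lt r3 hg)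
  have hapexβ : isoT F i j k p 1 2 = true →
      an (P (s3 p i j k)) (P (ov i j k p 0)) (P (ov i j k p 1)) = β := by
    intro h
    have := (apex hAPEX H hij hjk hk hp A.ne h (fun d h => okd_one h) (fun d h => okd_two h)).1
    rw [← H.beta] at this
    exact mul_right_cancel₀ hpi.ne' this
  have hapexα : isoT F i j k p 2 1 = true →
      an (P (s3 p i j k)) (P (ov i j k p 0)) (P (ov i j k p 1)) = α ∧ b < 2 * a := by
    intro h
    have := apex hAPEX H hij hjk hk hp A.ne h (fun d h => okd_two h) (fun d h => okd_one h)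
    rw [← H.alpha] at this
    exact ⟨mul_right_cancel₀ hpi.ne' this.1, this.2⟩
  have hh : hng F i j k p e i' j' k' q e' = true → 1 ≤ oc F i' j' k' q ∧
    (dist (P (ov i j k p 0)) (P (ov i j k p 1)) = dist (P (ov i' j' k' q 0)) (P (ov i' j' k' q 1)) →
      an (P (s3 p i j k)) (P (ov i j k p 0)) (P (ov i j k p 1)) =
      an (P (s3 q i' j' k')) (P (ov i' j' k' q 0)) (P (ov i' j' k' q 1))) ∧
    (dist (P (ov i' j' k' q 0)) (P (ov i' j' k' q 1)) < dist (P (ov i j k p 0)) (P (ov i j k p 1)) →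
      an (P (s3 q i' j' k')) (P (ov i' j' k' q 0)) (P (ov i' j' k' q 1)) <
      an (P (s3 p i j k)) (P (ov i j k p 0)) (P (ov i j k p 1))) := by
    intro h
    obtain ⟨h1, h2, h3⟩ := hng_spec H hij hjk hk hij' hjk' hk' hp hq he he' h
    exact ⟨h1, hinge hHINGE he he' A.ne A'.ne h2 h3⟩
  obtain ⟨so, -, -⟩ := sides H hij hjk hk hp
  obtain ⟨so', -, -⟩ := sides H hij' hjk' hk' hq
  by_cases hkd19 : 19 ≤ kd
  · have hf : ∀ n, n < 19 → Nat.beq kd n = false := fun n hn => by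
      rw [← Bool.not_eq_true, Nat.beq_eq]
      omega
    have hg : ∀ n, n < 19 → Nat.ble kd n = false := fun n hn => by
      rw [← Bool.not_eq_true, Nat.ble_eq]
      omega
    unfold row at h
    rw [hg 5 (by norm_num), hg 9 (by norm_num), hg 11 (by norm_num), hg 14 (by norm_num),
      hf 15 (by norm_num), hf 16 (by norm_num), hf 17 (by norm_num), hf 18 (by norm_num)] at h
    have h : and3 C.na (isoT F i j k p 2 1) (K 0 1 1) = true := h
    rw [and3_iff] at h
    have h1 := H.ok.na_ok h.1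
    have h2 := (hapexα h.2.1).2
    linarith
  · rw [not_le] at hkd19
    interval_cases kd
    · exact row_t hANG hPK H hs hij hjk hk hp h
    · -- kd = 1
      have h : and3 (Nat.beq (oc F i j k p) (oc F i j k q)) (Nat.ble 1 (oc F i j k p))
        (K (aP C.D i j k p + aN i j k q) (aN i j k p + aP C.D i j k q) 0) = true := h
      rw [and3_iff, Nat.beq_eq, Nat.ble_eq] at h
      obtain ⟨h1, h2, h3⟩ := h
      have heq : an (P (s3 q i j k)) (P (ov i j k q 0)) (P (ov i j k q 1)) =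
          an (P (s3 p i j k)) (P (ov i j k p 0)) (P (ov i j k p 1)) := by
        rcases two H hij hjk hk hp hq with ⟨e1, -⟩ | ⟨r, hne, e1, e2, c1, c2⟩
        · exact e1.symm
        · rw [e1, e2]
          rw [← h1] at c2
          have hlt : oc F i j k p < 4 := by
            unfold oc
            interval_cases p
            · rw [s3_0]; exact col_lt _ _ _
            · rw [s3_1]; exact col_lt _ _ _
            · rw [s3_2]; exact col_lt _ _ _
            · rw [s3_3]; exact col_lt _ _ _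
          have := okd_same hlt h2 c1 c2
          exact ((hISO _ _ r hne).1 this).symm
      exact row_d hPK A B h3 (by norm_num) heq.le (fun h => absurd h (by norm_num))
    · -- kd = 2
      have h : and3 (Nat.beq (oc F i j k p) 2) (Nat.beq (oc F i j k q) 1)
        (K (aP C.D i j k p + aN i j k q) (aN i j k p + aP C.D i j k q) 1) = true := h
      obtain ⟨h1, h3⟩ := kk _ h
      have hlt : an (P (s3 q i j k)) (P (ov i j k q 0)) (P (ov i j k q 1)) <
          an (P (s3 p i j k)) (P (ov i j k p 0)) (P (ov i j k p 1)) := by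
        obtain ⟨r, hne, e1, e2, d2, d1⟩ := opp H hij hjk hk hp hq h1.1 h1.2
        rw [e1, e2]
        exact (hISO _ _ r hne).2 (by rw [d1, d2]; exact H.hab)
      exact row_d hPK A B h3 le_rfl hlt.le (fun _ => hlt)
    · -- kd = 3
      have h : and3 (Nat.beq (oc F i j k p) 2) (Nat.beq (oc F i j k q) 1)
        (sel C.uk (K (C.kn * aP C.D i j k p + C.kd * aN i j k q)
          (C.kn * aN i j k p + C.kd * aP C.D i j k q) 1) false) = true := h
      obtain ⟨h1, h3⟩ := kk _ h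
      rw [sel_iff] at h3
      exact row_k hPK A B hkn hkd h3.2 (hsinl h3.1 h1).1
    · -- kd = 4
      have h : and3 (Nat.beq (oc F i j k p) 2) (Nat.beq (oc F i j k q) 1)
        (sel C.uk (K (C.kn * (C.D + aN i j k p) + C.kd * aN i j k q)
          (C.kn * aP C.D i j k p + C.kd * aP C.D i j k q) 1) false) = true := h
      obtain ⟨h1, h3⟩ := kk _ h
      rw [sel_iff] at h3
      exact row_k1 hPK hD0 hD A B hkn hkd h3.2 (hsinl h3.1 h1).2.1
    · -- kd = 5
      have h : and3 (Nat.beq (oc F i j k p) 2) (Nat.beq (oc F i j k q) 1)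
        (sel C.uk (K (C.ga + aN i j k q) (aP C.D i j k q) 1) false) = true := h
      obtain ⟨h1, h3⟩ := kk _ h
      rw [sel_iff] at h3
      exact row_g hPK B (by omega) h3.2 (hsinl h3.1 h1).2.2
    · -- kd = 6
      have h : sel (isoT F i j k p 2 1)
          (K (aP C.D i j k p) (aN i j k p + 79228162514264337593543950336) 0) false = true := h
      rw [sel_iff] at h
      obtain ⟨-, u, v, pu, pv, e0⟩ := A
      have := (hapexα h.1).1
      obtain ⟨hadd, -, -, -, -, -, -⟩ := hPK C.D α β φ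
      refine ⟨_, _, _, u, v + α, h.2, hmono _ _ _ _ pu (by norm_num),
        hmono _ _ _ _ (hadd _ _ _ _ _ _ pv hα) (by norm_num), ?_, zero_le_one,
        fun h => absurd h (by norm_num)⟩
      rw [← e0] at this; linarith
    · -- kd = 7
      have h : sel (isoT F i j k p 2 1)
          (K (aN i j k p + 79228162514264337593543950336) (aP C.D i j k p) 0) false = true := h
      rw [sel_iff] at h
      obtain ⟨-, u, v, pu, pv, e0⟩ := A
      have := (hapexα h.1).1
      obtain ⟨hadd, -, -, -, -, -, -⟩ := hPK C.D α β φ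
      refine ⟨_, _, _, v + α, u, h.2, 
        hmono _ _ _ _ (hadd _ _ _ _ _ _ pv hα) (by norm_num), hmono _ _ _ _ pu (by norm_num), ?_,
        zero_le_one, fun h => absurd h (by norm_num)⟩
      rw [← e0] at this; linarith
    · -- kd = 8
      have h : sel (isoT F i j k p 1 2)
          (K (aP C.D i j k p) (aN i j k p +
            6277101735386680763835789423207666416102355444464034512896) 0) false = true := h
      rw [sel_iff] at h
      obtain ⟨-, u, v, pu, pv, e0⟩ := A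
      have := hapexβ h.1
      obtain ⟨hadd, -, -, -, -, -, -⟩ := hPK C.D α β φ
      refine ⟨_, _, _, u, v + β, h.2, hmono _ _ _ _ pu (by norm_num),
        hmono _ _ _ _ (hadd _ _ _ _ _ _ pv hβ) (by norm_num), ?_, zero_le_one,
        fun h => absurd h (by norm_num)⟩
      rw [← e0] at this; linarith
    · -- kd = 9
      have h : sel (isoT F i j k p 1 2)
          (K (aN i j k p + 6277101735386680763835789423207666416102355444464034512896)
            (aP C.D i j k p) 0) false = true := h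
      rw [sel_iff] at h
      obtain ⟨-, u, v, pu, pv, e0⟩ := A
      have := hapexβ h.1
      obtain ⟨hadd, -, -, -, -, -, -⟩ := hPK C.D α β φ
      refine ⟨_, _, _, v + β, u, h.2, 
        hmono _ _ _ _ (hadd _ _ _ _ _ _ pv hβ) (by norm_num), hmono _ _ _ _ pu (by norm_num), ?_,
        zero_le_one, fun h => absurd h (by norm_num)⟩
      rw [← e0] at this; linarith
    · -- kd = 10
      have h : sel (hng F i j k p e i' j' k' q e')
        (sel (Nat.beq (oc F i j k p) (oc F i' j' k' q))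
          (K (aP C.D i j k p + aN i' j' k' q) (aN i j k p + aP C.D i' j' k' q) 0)
          false) false = true := h
      rw [sel_iff, sel_iff, Nat.beq_eq] at h
      obtain ⟨h1, h2, h3⟩ := h
      obtain ⟨g1, g2, -⟩ := hh h1
      have hlt : oc F i' j' k' q < 4 := by
        unfold oc
        interval_cases q
        · rw [s3_0]; exact col_lt _ _ _
        · rw [s3_1]; exact col_lt _ _ _
        · rw [s3_2]; exact col_lt _ _ _
        · rw [s3_3]; exact col_lt _ _ _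
      rw [h2] at so
      have := okd_same hlt g1 so so'
      exact row_d hPK A A' h3 (by norm_num) (g2 this).symm.le (fun h => absurd h (by norm_num))
    · -- kd = 11
      have h : sel (hng F i j k p e i' j' k' q e')
        (and3 (Nat.beq (oc F i j k p) 2) (Nat.beq (oc F i' j' k' q) 1)
          (K (aP C.D i j k p + aN i' j' k' q) (aN i j k p + aP C.D i' j' k' q)
            1)) false = true := h
      rw [sel_iff, and3_iff, Nat.beq_eq, Nat.beq_eq] at h
      obtain ⟨h1, h2, h2', h3⟩ := h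
      obtain ⟨g1, -, g2⟩ := hh h1
      rw [h2] at so
      rw [h2'] at so'
      have := g2 (by rw [okd_two so, okd_one so']; exact H.hab)
      exact row_d hPK A A' h3 le_rfl this.le (fun _ => this)
    · -- kd = 12
      have h : and3
        (and3 (Nat.beq (ad1 F i j k p) 1) (Nat.beq (ad2 F i j k p) 1) C.uk)
        (and3 (Nat.beq (ad1 F i' j' k' q) 2) (Nat.beq (ad2 F i' j' k' q) 2)
          (Nat.beq (ov i j k p 0 + ov i j k p 1) (ov i' j' k' q 0 + ov i' j' k' q 1)))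
        (sel (Nat.beq (ov i j k p 0 * ov i j k p 1) (ov i' j' k' q 0 * ov i' j' k' q 1))
          (K (C.kn * aP C.D i j k p + C.kd * aN i' j' k' q)
            (C.kn * aN i j k p + C.kd * aP C.D i' j' k' q) 1) false) = true := h
      rw [and3_iff, and3_iff, and3_iff, sel_iff, Nat.beq_eq, Nat.beq_eq, Nat.beq_eq, Nat.beq_eq,
        Nat.beq_eq, Nat.beq_eq] at h
      obtain ⟨⟨h1, h2, hC⟩, ⟨h3, h4, h5⟩, h6, h7⟩ := h
      have r := base hBASE2 H hC hij hjk hk hij' hjk' hk' hp hq A.ne A'.ne h1 h2 h3 h4 h5 h6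
      exact row_k hPK A A' hkn hkd h7 r.1
    · -- kd = 13
      have h : and3
        (and3 (Nat.beq (ad1 F i j k p) 1) (Nat.beq (ad2 F i j k p) 1) C.uk)
        (and3 (Nat.beq (ad1 F i' j' k' q) 2) (Nat.beq (ad2 F i' j' k' q) 2)
          (Nat.beq (ov i j k p 0 + ov i j k p 1) (ov i' j' k' q 0 + ov i' j' k' q 1)))
        (sel (Nat.beq (ov i j k p 0 * ov i j k p 1) (ov i' j' k' q 0 * ov i' j' k' q 1))
          (K (C.qd * aP C.D i' j' k' q + C.qn * aN i j k p)
            (C.qd * aN i' j' k' q + C.qn * aP C.D i j k p) 1) false) = true := h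
      rw [and3_iff, and3_iff, and3_iff, sel_iff, Nat.beq_eq, Nat.beq_eq, Nat.beq_eq, Nat.beq_eq,
        Nat.beq_eq, Nat.beq_eq] at h
      obtain ⟨⟨h1, h2, hC⟩, ⟨h3, h4, h5⟩, h6, h7⟩ := h
      have r := base hBASE2 H hC hij hjk hk hij' hjk' hk' hp hq A.ne A'.ne h1 h2 h3 h4 h5 h6
      exact row_k hPK A' A hqd hqn h7 r.2.1
    · -- kd = 14
      have h : and3
        (and3 (Nat.beq (ad1 F i j k p) 1) (Nat.beq (ad2 F i j k p) 1) C.uk)
        (and3 (Nat.beq (ad1 F i' j' k' q) 2) (Nat.beq (ad2 F i' j' k' q) 2)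
          (Nat.beq (ov i j k p 0 + ov i j k p 1) (ov i' j' k' q 0 + ov i' j' k' q 1)))
        (sel (Nat.beq (ov i j k p 0 * ov i j k p 1) (ov i' j' k' q 0 * ov i' j' k' q 1))
          (K (2 * C.ga + aN i' j' k' q) (aP C.D i' j' k' q) 1) false) = true := h
      rw [and3_iff, and3_iff, and3_iff, sel_iff, Nat.beq_eq, Nat.beq_eq, Nat.beq_eq, Nat.beq_eq,
        Nat.beq_eq, Nat.beq_eq] at h
      obtain ⟨⟨h1, h2, hC⟩, ⟨h3, h4, h5⟩, h6, h7⟩ := h
      have r := base hBASE2 H hC hij hjk hk hij' hjk' hk' hp hq A.ne A'.ne h1 h2 h3 h4 h5 h6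
      exact row_g hPK A' (by omega) h7 r.2.2
    · -- kd = 15
      have h : K 79228162514264337593543950336 C.al 1 = true := h
      have h0 := H.ok.al_lt
      rw [← H.alpha] at h0
      exact ⟨_, _, _, α, C.al / C.D, h, hmono _ _ _ _ hα (by norm_num),
        hmono _ _ _ _ (hc C.al) (by omega), (cmp _ _ h0).le, le_rfl, fun _ => cmp _ _ h0⟩
    · -- kd = 16
      have h : sel C.ua (K C.ah 79228162514264337593543950336 1) false = true := h
      rw [sel_iff] at h
      have h0 := H.ok.lt_ah h.1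
      rw [← H.alpha] at h0
      exact ⟨_, _, _, C.ah / C.D, α, h.2, hmono _ _ _ _ (hc C.ah) (by omega),
        hmono _ _ _ _ hα (by norm_num), (cmp _ _ h0).le, le_rfl, fun _ => cmp _ _ h0⟩
    · -- kd = 17
      have h : K 6277101735386680763835789423207666416102355444464034512896 C.bl 1 = true := h
      have h0 := H.ok.bl_lt
      rw [← H.beta] at h0
      exact ⟨_, _, _, β, C.bl / C.D, h, hmono _ _ _ _ hβ (by norm_num),
        hmono _ _ _ _ (hc C.bl) (by omega), (cmp _ _ h0).le, le_rfl, fun _ => cmp _ _ h0⟩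
    · -- kd = 18
      have h : K C.bh 6277101735386680763835789423207666416102355444464034512896 1 = true := h
      have h0 := H.ok.lt_bh
      rw [← H.beta] at h0
      exact ⟨_, _, _, C.bh / C.D, β, h, hmono _ _ _ _ (hc C.bh) (by omega),
        hmono _ _ _ _ hβ (by norm_num), (cmp _ _ h0).le, le_rfl, fun _ => cmp _ _ h0⟩

end RowPf

theorem st_ROW (hANG : ST_ANG) (hISO : ST_ISO) (hAPEX : ST_APEX) (hHINGE : ST_HINGE)
    (hSINL : ST_SINL) (hBASE2 : ST_BASE2) (hPK : ST_PK) : ST_ROW := by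
  intro C m F P a b α β φ H hs kd i j k p i' j' k' q e e' K hij hjk hk hij' hjk' hk' hp hq he he' h
  exact RowPf.main hANG hISO hAPEX hHINGE hSINL hBASE2 hPK H hs hij hjk hk hij' hjk' hk' hp hq he
    he' h

end RTwo
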